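import Pool.Agent.H731_RK.Main

/-!
# Typical rank-one perturbations of an arbitrary operator

`X` is any infinite-dimensional complex Banach space, `T` is ANY bounded operator on `X`, and for
`p = (u, v)` in `X × X*` let `rk p` be the operator `x ↦ v(x) u` (`Pool/Agent/H731_RK/Res.lean`).

* `HalfSpace V` (`Pool/Agent/H731_RK/Half.lean`): `V` is a closed subspace of infinite dimension and
  infinite codimension.
* `Inv S V`: `V` is invariant under `S`. `Hyper S V`: `V` is invariant under all bounded operators which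
  commute with `S`.
* `AtMostPole T z₀` (`Pool/Agent/H731_RK/Den.lean`): the points `z ≠ z₀` near `z₀` are in the resolvent
  set of `T`, and `‖(z - T)⁻¹‖ |z - z₀|ⁿ` is bounded there for some `n`.

The theorem says:

1. For all `(u, v)` in a dense open subset of `X × X*` the operator `T + u ⊗ v` has an eigenvalue in the
   resolvent set of `T` whose eigenspace is a line; this line is a hyperinvariant subspace.
2. There is a dense `G_δ` subset of `X × X*` such that for all `(u, v)` in it, for `κ = 1` and, more
   generally, for all `κ` in a dense `G_δ` subset of `ℂ`, the operator `S = T + κ u ⊗ v` has eigenvalues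
   in the resolvent set of `T` arbitrarily close to every point of the boundary of the spectrum of `T`
   which is not a pole of the resolvent; `S` has an invariant half-space; and if no nonzero polynomial
   annihilates `T`, then `S` has a hyperinvariant half-space.
3. For all `u ≠ 0`, `v ≠ 0` there is `K` such that for all `|κ| ≥ K` the operator `T + κ u ⊗ v` has a
   closed invariant subspace other than `0` and `X`.

That every `T` has some perturbation of rank at most one, of arbitrarily small norm, with an invariant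
half-space is a theorem of Tcaciuc; the point of statement 2 is that typical perturbations do.

Proof. `l` in the resolvent set is an eigenvalue of `T + u ⊗ v` if and only if `F(l) = v((l - T)⁻¹ u)` is
`1`, with eigenvector `(l - T)⁻¹ u` and eigenfunctional `v ∘ (l - T)⁻¹`; eigenfunctionals kill the
eigenvectors of the other eigenvalues, so every second eigenvector spans a half-space. If `F ≠ 1` on an
open subset `Ω` of the resolvent set for all `(u, v)` in a ball of radius `ε` around `(u₀, v₀)`, then the
polynomials `F₀(l) - 1 + s a + t b + s t c`, `c = y((l - T)⁻¹ x)`, have no zeros in a bidisc, so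
`|c| ≤ |F₀(l) - 1|` up to a constant, and `G = 1 / (F₀ - 1)` satisfies `|G(l)| ‖(l - T)⁻¹‖ ≤ C`, in
particular `|G(l)| ≤ C |l - μ|` for all `μ` in the spectrum. Products of `G` with rational functions and
the maximum principle show that this is impossible near boundary points of the spectrum which are not
poles (a quantitative form of Radó's theorem), and on the whole resolvent set. If all boundary points
of the spectrum are poles, `T` is algebraic.
-/

open Topology Set
open Polynomial (aeval)

namespace Pool.Agent.Results.MP_f981b0_an.GenericRankOne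

open Pool.Agent.H731_RK

theorem result {X : Type*} [NormedAddCommGroup X] [NormedSpace ℂ X] [CompleteSpace X]
    (hX : ¬ FiniteDimensional ℂ X) (T : X →L[ℂ] X) :
    (∃ U : Set (X × (X →L[ℂ] ℂ)), IsOpen U ∧ Dense U ∧ ∀ p ∈ U,
      ∃ l ∈ resolventSet ℂ T, ∃ x : X, x ≠ 0 ∧
        (∀ y : X, (T + rk p) y = l • y ↔ y ∈ Submodule.span ℂ {x}) ∧
        Hyper (T + rk p) (Submodule.span ℂ {x})) ∧
    (∃ G : Set (X × (X →L[ℂ] ℂ)), IsGδ G ∧ Dense G ∧ ∀ p ∈ G,
      ∃ R : Set ℂ, IsGδ R ∧ Dense R ∧ (1 : ℂ) ∈ R ∧ ∀ κ ∈ R,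
        (∀ z₀ ∈ frontier (spectrum ℂ T), ¬ AtMostPole T z₀ → ∀ ε > 0,
          ∃ l ∈ resolventSet ℂ T, ‖l - z₀‖ < ε ∧ ∃ x : X, x ≠ 0 ∧ (T + κ • rk p) x = l • x) ∧
        (∃ V : Submodule ℂ X, HalfSpace V ∧ Inv (T + κ • rk p) V) ∧
        ((¬ ∃ q : Polynomial ℂ, q ≠ 0 ∧ aeval T q = 0) →
          ∃ V : Submodule ℂ X, HalfSpace V ∧ Hyper (T + κ • rk p) V)) ∧
    (∀ p : X × (X →L[ℂ] ℂ), p.1 ≠ 0 → p.2 ≠ 0 → ∃ K : ℝ, ∀ κ : ℂ, K ≤ ‖κ‖ →
      ∃ V : Submodule ℂ X, IsClosed (V : Set X) ∧ V ≠ ⊥ ∧ V ≠ ⊤ ∧ Inv (T + κ • rk p) V) := by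
  have : Nontrivial X := by
    by_contra hn
    rw [not_nontrivial_iff_subsingleton] at hn
    exact hX inferInstance
  refine ⟨⟨{p | Good T p univ}, good_open T univ, dense_univ T, fun p hp => ?_⟩, ?_,
    fun p hu hv => large hX T hu hv⟩
  · obtain ⟨l, -, hl, h1⟩ := good_zero hp
    have hline : ∀ y : X, (T + rk p) y = l • y ↔ y ∈ Submodule.span ℂ {resolvent T l p.1} := by
      intro y
      rw [Submodule.mem_span_singleton]
      constructor
      · intro hy
        exact ⟨p.2 y, (eig_line hl hy).symm⟩
      · rintro ⟨c, rfl⟩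
        rw [map_smul, eig_vec hl h1, smul_comm]
    refine ⟨l, hl, resolvent T l p.1, eig_vec_ne h1, hline, fun A hA y hy => ?_⟩
    rw [← hline] at hy ⊢
    have h2 := congrArg (fun B : X →L[ℂ] X => B y) hA
    simp only [mul_apply_eq_comp] at h2
    rw [← h2, hy, map_smul]
  · obtain ⟨G, hG, hGd, h⟩ := generic T
    refine ⟨G, hG, hGd, fun p hp => ?_⟩
    obtain ⟨R, hR, hRd, h1, hacc⟩ := h p hp
    refine ⟨R, hR, hRd, h1, fun κ hκ => ⟨fun z₀ hz₀ hpole ε hε => ?_, ?_⟩⟩
    · obtain ⟨l, hl, hl2, hl3⟩ := hacc κ hκ z₀ hz₀ hpole ε hε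
      refine ⟨l, hl2, by rwa [Metric.mem_ball, dist_eq_norm] at hl, _, eig_vec_ne hl3, ?_⟩
      have := eig_vec hl2 hl3
      rwa [rk_smul] at this
    · have h2 := conseq hX (hacc κ hκ)
      rwa [rk_smul] at h2

end Pool.Agent.Results.MP_f981b0_an.GenericRankOne
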