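import Pool.Agent.H499.CI.F

/-!
# MP_f981b0_an: sequences of operators intertwined by a compact operator

Let `X` be a complex Banach space, `K` a nonzero compact operator on `X` and `S 0, S 1, ...` bounded
operators on `X`, not all of them scalar, with

* `S n K = K S (n+1)` for all `n` and `liminf ‖S n K‖^(1/n) < ∞`, or
* `K S n = S (n+1) K` for all `n` and `liminf ‖K S n‖^(1/n) < ∞`.

Then there is a nontrivial closed subspace which is invariant under every bounded operator which
commutes with all `S n`. No other relation between the operators `S n` is assumed. For `S n = T` this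
is Lomonosov's theorem (`T K = K T`), for `S n = λ^n T` it is the theorem of Brown and of Kim, Moore
and Pearcy (`T K = λ K T`).

In particular, if `T` is not scalar and `T K = K φ(T)` or `K T = φ(T) K` for a polynomial `φ` whose
iterates `φ_n` satisfy `‖φ_n(T) K‖ ≤ ρ^n`, respectively `‖K φ_n(T)‖ ≤ ρ^n`, for one `ρ` and infinitely
many `n`, then `T` has a nontrivial hyperinvariant subspace.

Idea of the proof. Let `A` be the algebra of the operators commuting with all `S n`, and suppose that
it has no nontrivial closed invariant subspace. By Lomonosov's lemma `B x = x` for some `B = a K`,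
`a ∈ A`, `x ≠ 0`. Then `S k x = B^n (S (k+n) x)` for all `n`, so by Riesz theory and the growth
condition all `S k x` lie in one finite dimensional space. As an operator commuting with `A` is
determined by its value at `x`, the linear span `L` of `1` and the `S n` is finite dimensional, and
`p K = K σ(p)` defines a linear map `σ` of `L` with `σ(1) = 1`. So there is a nonscalar `N ∈ L` with
`N K = K (l N + c)`; this is reduced to `N K = l K N` or `N K = K N + c K`, and both are impossible
(the first by a new application of Lomonosov's lemma, to `K` or to `N K`, the second because it gives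
`N B^n - B^n N = n c B^n`). In the second case one works with the adjoint of `B`.
-/

set_option autoImplicit false
open Filter Polynomial

universe u

namespace Pool.Agent.Results.MP_f981b0_an.IntertwinedSequences

open Pool.Agent.H499.CI

/-- The two forms of the intertwining hypothesis, with the growth conditions: for infinitely many
`n` the norm of `S n K` (of `K S n`) is at most `ρ^n`. -/
def Intertwined {X : Type u} [NormedAddCommGroup X] [NormedSpace ℂ X] (K : X →L[ℂ] X)
    (S : ℕ → X →L[ℂ] X) (ρ : ℝ) : Prop :=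
  ((∀ n, S n * K = K * S (n + 1)) ∧ ∃ᶠ n : ℕ in atTop, ‖S n * K‖ ≤ ρ ^ n) ∨
  ((∀ n, K * S n = S (n + 1) * K) ∧ ∃ᶠ n : ℕ in atTop, ‖K * S n‖ ≤ ρ ^ n)

theorem aeval_mul {X : Type u} [NormedAddCommGroup X] [NormedSpace ℂ X] {T K R : X →L[ℂ] X}
    (h : T * K = K * R) (p : ℂ[X]) : aeval T p * K = K * aeval R p := by
  induction p using Polynomial.induction_on' with
  | add p q hp hq => rw [map_add, map_add, add_mul, mul_add, hp, hq]
  | monomial n c =>
    have hn : T ^ n * K = K * R ^ n := by
      induction n with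
      | zero => simp
      | succ n ih => rw [pow_succ, mul_assoc, h, ← mul_assoc, ih, mul_assoc, ← pow_succ]
    rw [aeval_monomial, aeval_monomial, mul_assoc, hn, Algebra.algebraMap_eq_smul_one,
      smul_mul_assoc, smul_mul_assoc, one_mul, one_mul, mul_smul_comm]

theorem iter_comp (φ : ℂ[X]) (n : ℕ) :
    ((fun q => φ.comp q)^[n] X).comp φ = (fun q => φ.comp q)^[n + 1] X := by
  induction n with
  | zero => simp
  | succ n ih =>
    rw [Function.iterate_succ_apply', comp_assoc, ih, ← Function.iterate_succ_apply' (fun q => φ.comp q)]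

/-- **Theorem.** Let `K` be a nonzero compact operator and `S 0, S 1, ...` bounded operators, not all
scalar, on a complex Banach space, with `S n K = K S (n+1)` for all `n` and `‖S n K‖ ≤ ρ^n` for
infinitely many `n`, or with `K S n = S (n+1) K` for all `n` and `‖K S n‖ ≤ ρ^n` for infinitely many
`n`. Then there is a closed subspace other than `0` and `X` which is invariant under all bounded
operators which commute with all `S n`. -/
theorem result {X : Type u} [NormedAddCommGroup X] [NormedSpace ℂ X] [CompleteSpace X]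
    (K : X →L[ℂ] X) (hK : IsCompactOperator K) (hK0 : K ≠ 0) (S : ℕ → X →L[ℂ] X) (ρ : ℝ)
    (h : Intertwined K S ρ) (hS : ∃ n, ∀ c : ℂ, S n ≠ c • 1) :
    ∃ M : Submodule ℂ X, IsClosed (M : Set X) ∧ M ≠ ⊥ ∧ M ≠ ⊤ ∧
      ∀ R : X →L[ℂ] X, (∀ n, R * S n = S n * R) → ∀ x ∈ M, R x ∈ M := by
  by_contra hcon
  push Not at hcon
  set A : Subalgebra ℂ (X →L[ℂ] X) := Subalgebra.centralizer ℂ (Set.range S) with hA
  have hmem : ∀ R, R ∈ A ↔ ∀ n, R * S n = S n * R := by
    intro R
    rw [hA, Subalgebra.mem_centralizer_iff]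
    constructor
    · intro h n
      exact (h (S n) ⟨n, rfl⟩).symm
    · rintro h _ ⟨n, rfl⟩
      exact (h n).symm
  have htr : Trans A := by
    intro M hM hinv
    by_contra hne
    rw [not_or] at hne
    obtain ⟨R, hR, x, hx, hRx⟩ := hcon M hM hne.1 hne.2
    exact hRx (hinv R ((hmem R).2 hR) x hx)
  have hcom : ∀ n, Com A (S n) := fun n a ha => (hmem a).1 ha n
  obtain ⟨n, hn⟩ := hS
  rcases h with ⟨h1, h2⟩ | ⟨h1, h2⟩
  · obtain ⟨c, hc⟩ := main1 htr hK hK0 S hcom h1 h2 n
    exact hn c hc
  · obtain ⟨c, hc⟩ := main2 htr hK hK0 S hcom h1 h2 n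
    exact hn c hc

/-- The case of polynomials: `T K = K φ(T)` or `K T = φ(T) K`, with exponential bounds along a
subsequence for the iterates `φ_n` of `φ`. -/
theorem polynomial (X : Type u) [NormedAddCommGroup X] [NormedSpace ℂ X] [CompleteSpace X]
    (K T : X →L[ℂ] X) (φ : ℂ[X]) (ρ : ℝ) (hK : IsCompactOperator K) (hK0 : K ≠ 0)
    (hT : ∀ c : ℂ, T ≠ c • 1)
    (h : (T * K = K * aeval T φ ∧
        ∃ᶠ n : ℕ in atTop, ‖aeval T ((fun q : ℂ[X] => φ.comp q)^[n] Polynomial.X) * K‖ ≤ ρ ^ n) ∨
      (K * T = aeval T φ * K ∧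
        ∃ᶠ n : ℕ in atTop, ‖K * aeval T ((fun q : ℂ[X] => φ.comp q)^[n] Polynomial.X)‖ ≤ ρ ^ n)) :
    ∃ M : Submodule ℂ X, IsClosed (M : Set X) ∧ M ≠ ⊥ ∧ M ≠ ⊤ ∧
      ∀ R : X →L[ℂ] X, R * T = T * R → ∀ x ∈ M, R x ∈ M := by
  obtain ⟨M, hM1, hM2, hM3, hM4⟩ := result K hK hK0
    (fun n => aeval T ((fun q : ℂ[X] => φ.comp q)^[n] Polynomial.X)) ρ (by
      rcases h with ⟨h1, h2⟩ | ⟨h1, h2⟩
      · refine Or.inl ⟨fun n => ?_, h2⟩
        show aeval T ((fun q : ℂ[X] => φ.comp q)^[n] Polynomial.X) * K =
          K * aeval T ((fun q : ℂ[X] => φ.comp q)^[n + 1] Polynomial.X)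
        rw [← iter_comp, aeval_comp]
        exact aeval_mul h1 _
      · refine Or.inr ⟨fun n => ?_, h2⟩
        show K * aeval T ((fun q : ℂ[X] => φ.comp q)^[n] Polynomial.X) =
          aeval T ((fun q : ℂ[X] => φ.comp q)^[n + 1] Polynomial.X) * K
        rw [← iter_comp, aeval_comp]
        exact (aeval_mul h1.symm _).symm)
    ⟨0, fun c => by simpa using hT c⟩
  refine ⟨M, hM1, hM2, hM3, fun R hR => hM4 R fun n => ?_⟩
  exact (aeval_mul hR.symm _).symm

end Pool.Agent.Results.MP_f981b0_an.IntertwinedSequences
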