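import Pool.Agent.H109F.LK.Final2

/-!
# Compact solutions of power series relations

Let `T` be a bounded operator on a complex Banach space, not a scalar, with totally disconnected
spectrum (for instance quasinilpotent), and let `K ≠ 0` be a compact operator. Suppose that for every
`c ∈ σ(T)` (if `σ(T)` has more than one point, this is not even needed) `K` satisfies a relation

  `∑ p i j • (T - c) ^ i K (T - c) ^ j = 0`

with a convergent power series `p(x, y) = ∑ p i j x ^ i y ^ j` whose form of lowest degree has no
multiple zero `(ζ, 1)` with `ζ` a root of unity, or with a product of finitely many such series. Then `T`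
has a nontrivial closed hyperinvariant subspace.

Commuting (`TK = KT`, Lomonosov 1973) and intertwining `TK = λKT` (Brown 1979; Kim, Moore and Pearcy 1979)
are relations of order one. The theorem covers, for `T` with totally disconnected spectrum and a compact
`K ≠ 0`:
* all relations `g(T) K = K f(T)` with `f`, `g` holomorphic near `σ(T)`, not constant near any point of it:
  here `p(x, y) = g(c + x) - f(c + y)`, and the form of lowest degree is a constant, `a x ^ m`, `b y ^ n` or
  `a x ^ m + b y ^ m` with `a b ≠ 0`; in particular `TK = K f(T)` for all `f`, also if `f'(c)` is one or a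
  root of unity (parabolic fixed points);
* all homogeneous relations `∑ a i T ^ i K T ^ (n - i) = 0`, which are products of linear ones;
* `T²K - a TKT + b KT² + (terms of higher order) = 0` if `z² - a z + b` has no root of unity as a double zero.

Proof. We may suppose that `σ(T) = {0}` (Riesz projections) and that `T` has no hyperinvariant subspace. So
`T` is injective with dense range, and by Lomonosov's lemma, for every compact `K ≠ 0` there are
`A ∈ {T}'` and `y ≠ 0` with `K A y = y`. By Hensel's lemma for convergent power series (with estimates, since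
`L_T` and `R_T` are quasinilpotent) `p` is, up to a power of `y`, a product of factors whose lowest forms are
of the following kinds.
* All zeros `z` of the form satisfy `|z| < 1` (the case `|z| > 1` is dual). After multiplication by a form, the
  lowest form is `x ^ N` minus a form with small coefficients. There are `A ∈ {T}'` and `v ≠ 0` with
  `A T ^ (N - 1) K v = v`. The double sequence `a (m, l) = T ^ m A K T ^ l v` satisfies the linear recurrence
  given by `p`, it is superexponentially small, `a (l + N - 1, 0) = T ^ l v`, and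
  `‖a (m, l)‖ ≤ c ‖a (l + N - 1, 0)‖` for `m < N`. These facts imply `a (m, l) = 0` for large `m + l`, against
  the injectivity of `T`. So `K = 0`.
* `(z - λ) ^ (m + 1)` with `|λ| = 1`, `λ` not a root of unity. By the Weierstrass preparation form of the relation
  the row `R = (K T ^ m, T K T ^ (m - 1), …, T ^ m K)` satisfies `T R = R T Ψ` with the companion matrix `Ψ` over
  `{T}''`, and `Ψ = λ (1 + Q)` with `Q` quasinilpotent. With `D = A R` on `X ^ (m + 1)`, the function
  `F(t) = D (1 + Q) ^ t` is entire of exponential type zero with compact values, and `T F(t) = λ F(t + 1) T`.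
  So `F(t)` and `λ F(t + 1)` have the same nonzero eigenvalues. `log r(F(t))` is subharmonic, has period one
  and grows more slowly than `|t|`, so it is constant; hence the eigenvalues of maximal modulus do not depend
  on `t`. They are invariant under multiplication by `λ`, so there are infinitely many, unless `r(F(t)) = 0`.
  But `F(0) = D` has the eigenvalue `1`.
* `z - λ` with `λ ^ n = 1`, that is `T K = K f(T)` with `f(y) = λ y + …`. With `C = A K`, `D = C T`, `D x = x`
  one has `T (C T) ^ (n - 1) C = (C T) ^ (n - 1) C f ^ n (T)` (`n`-th iterate), so we may suppose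
  `f(y) = y + c y ^ (k + 1) + …`; if `f(y) = y`, this is Lomonosov's theorem. Let `c ≠ 0`, `k ≥ 1` and
  `R(y) = (y - T)⁻¹`. Then `f'(y) R(f(y)) D = D R(y) + O(1)` for `y → 0`. Every small `y ≠ 0` has a forward or a
  backward `f`-orbit `t_n → 0` with `∑ |t_n| ^ (k + 1)` small. Along forward orbits
  `z_n = t_n ^ (k + 1) R(t_n) x → 0`: normalized limit points `e` exist since `D` is compact, and `T e = 0`.
  By induction on `p` the following holds for all functionals `ξ` with `ξ (D - 1) ^ p = 0`: first,
  `t_n ^ (k + 1) ξ R(t_n) → 0` along backward orbits (the same argument for the adjoints); then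
  `y ^ (k + 1) ξ R(y) x → 0` for `y → 0` (sum along the orbits), so `ξ T ^ m x = 0` for `m ≥ k` (Liouville); then
  `ξ T ^ m x = 0` for all integers `m` (`x` is in the range of every `T ^ j`, and with `T = V f(T)` one has
  `D V ^ j T ^ (- j) x = T ^ (- j) x`, `1 - V ^ j = j c T ^ k + …`). But since `D` is compact and `D x = x ≠ 0`,
  there are such `ξ` with `ξ x ≠ 0`.
-/

set_option autoImplicit false

namespace Pool.Agent.Results.MP_f981b0_an.PolynomialRelation

/-- `T` has a closed subspace, neither `{0}` nor the whole space, which is invariant under every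
bounded operator commuting with `T` -/
def HasHyperinvariant {X : Type} [NormedAddCommGroup X] [NormedSpace ℂ X] (T : X →L[ℂ] X) : Prop :=
  ∃ V : Submodule ℂ X, IsClosed (V : Set X) ∧ V ≠ ⊥ ∧ V ≠ ⊤ ∧
    ∀ Q : X →L[ℂ] X, Q * T = T * Q → ∀ v ∈ V, Q v ∈ V

/-- The power series `∑ p i j x ^ i y ^ j` converges near `(0, 0)`, and its homogeneous form of lowest
degree `k`, `P(x, y) = ∑ p i (k - i) x ^ i y ^ (k - i)`, has no multiple zero `(ζ, 1)` with `ζ` a root of
unity: `P(ζ, 1) ≠ 0` or `(∂P/∂x)(ζ, 1) ≠ 0`. -/
def Admissible (p : ℕ → ℕ → ℂ) : Prop :=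
  ∃ (B : ℝ) (k : ℕ), (∀ i j, ‖p i j‖ ≤ B ^ (i + j + 1)) ∧ (∀ i j, i + j < k → p i j = 0) ∧
    ∀ ζ : ℂ, (∃ n : ℕ, 1 ≤ n ∧ ζ ^ n = 1) →
      ∑ i ∈ Finset.range (k + 1), p i (k - i) * ζ ^ i ≠ 0 ∨
      ∑ i ∈ Finset.range (k + 1), (i : ℂ) * p i (k - i) * ζ ^ (i - 1) ≠ 0

/-- `K` is annihilated by a product of `r` admissible power series in left and right multiplication by
`T`: `Ks 0 = K`, `Ks (s + 1) = ∑ (p s) i j • T ^ i (Ks s) T ^ j` with `p s` admissible, and `Ks r = 0`.
For `r = 1` this is the relation `∑ p i j • T ^ i K T ^ j = 0` with an admissible `p`. -/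
def Annihilated {X : Type} [NormedAddCommGroup X] [NormedSpace ℂ X] (T K : X →L[ℂ] X) : Prop :=
  ∃ (r : ℕ) (Ks : ℕ → (X →L[ℂ] X)) (p : ℕ → ℕ → ℕ → ℂ), Ks 0 = K ∧ Ks r = 0 ∧
    ∀ s < r, Admissible (p s) ∧
      HasSum (fun ij : ℕ × ℕ => p s ij.1 ij.2 • (T ^ ij.1 * Ks s * T ^ ij.2)) (Ks (s + 1))

/-- Let `T` be a bounded operator on a complex Banach space, not a scalar multiple of the identity, whose
spectrum is totally disconnected (for instance a quasinilpotent `T ≠ 0`), and let `K ≠ 0` be compact. If for
every `c ∈ σ(T)` there is a relation `∑ p i j • (T - c) ^ i K (T - c) ^ j = 0` with an admissible convergent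
power series `p`, or with a product of admissible ones, then `T` has a nontrivial closed hyperinvariant
subspace. -/
theorem result {X : Type} [NormedAddCommGroup X] [NormedSpace ℂ X] [CompleteSpace X]
    (T K : X →L[ℂ] X) (hT : ∀ c : ℂ, T ≠ c • (1 : X →L[ℂ] X))
    (hσ : IsTotallyDisconnected (spectrum ℂ T)) (hK0 : K ≠ 0) (hK : IsCompactOperator K)
    (h : ∀ c ∈ spectrum ℂ T, Annihilated (T - c • (1 : X →L[ℂ] X)) K) : HasHyperinvariant T := by
  by_contra hcon
  obtain ⟨c, hc, hS, hS0, hq⟩ := Pool.Agent.H109F.LK.reduce hT hσ hK0 hcon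
  obtain ⟨r, Ks, p, h0, hr, hs⟩ := h c hc
  have key : ∀ s, s ≤ r → IsCompactOperator (Ks s) ∧ Ks s ≠ 0 := by
    intro s
    induction s with
    | zero =>
      intro _
      rw [h0]
      exact ⟨hK, hK0⟩
    | succ s ih =>
      intro hsr
      obtain ⟨h1, h2⟩ := ih (by omega)
      obtain ⟨⟨B, k, hB, hk, hz⟩, hsum⟩ := hs s (by omega)
      obtain ⟨h3, h4⟩ := Pool.Agent.H109F.LK.kill hS hS0 hq h1 hB hk hz hsum
      exact ⟨h3, fun h5 => h2 (h4 h5)⟩
  exact (key r le_rfl).2 hr

end Pool.Agent.Results.MP_f981b0_an.PolynomialRelation
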