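import Pool.Agent.H875.QN.Main
import Pool.Agent.Y271.CO.Cor

/-!
# Finite rank perturbations of quasinilpotent operators: at most `2 n` exceptional couplings

Let `A` be a bounded operator with totally disconnected spectrum (for instance quasinilpotent, a Riesz
operator, or with countable spectrum) on an infinite dimensional complex Banach space `X`, and let `K`
be an operator of finite rank `n`. Then

* for all but at most `2 n` complex numbers `κ` the operator `A + κ K` has a nontrivial closed
  hyperinvariant subspace, or
* `K` is nilpotent, all the operators `A + κ K` have one and the same one-point spectrum and, if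
  `n = 1`, `A` and `K` have a common nontrivial closed invariant subspace.

So for `K` of rank one at most two of the operators `A + κ K` have no nontrivial closed invariant
subspace; and for `K` of rank `n`, not nilpotent (for instance a projection), at most `2 n` have no
nontrivial closed hyperinvariant subspace. Nothing is assumed about `A` besides its spectrum: whether
quasinilpotent operators on reflexive spaces have invariant subspaces is open (on `ℓ¹` they need not,
by Read).

Proof. If `A + κ K` has no hyperinvariant subspace it has no eigenvectors (or is scalar), so its spectrum
is contained in that of `A` (Fredholm alternative), hence totally disconnected, hence a point (Riesz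
projections). The point does not depend on `κ` (powers modulo the compact operators). So we may
suppose that `T = A + κ₀ K` is quasinilpotent and have to count the `κ` with `T + κ K` quasinilpotent.
Write `K = J F` with `F : X → ℂⁿ`. By the second resolvent identity `T + κ K` is quasinilpotent if and
only if `P(w, κ) = det (1 - κ w F (1 - w T)⁻¹ J)` has no zeros `w`. `P` is a polynomial in `κ` of degree at
most `n` whose coefficients are entire functions of `w`, and `P(0, κ) = P(w, 0) = 1`. Suppose
`P(·, κ) = exp G_κ` for the elements `κ` of a set `s ∋ 0` with `2 n + 1` elements. By Lagrange's formula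
there is a linear relation with nonzero constant coefficients between any `n + 2` of these functions. Let
`C` be the set of the `κ ∈ s` with `P(·, κ) = 1`. By Borel's theorem the coefficients of each relation
which belong to `C` have sum zero. If `s` had `n + 1` elements outside of `C`, this would be wrong for the
relation of these and `0`; so `C` has `n + 1` elements, and then there is no `κ` in `s` outside of `C` (the
relation of `κ` and `n + 1` elements of `C`, compared with the same relation for the constant `1`). So
`P(w, ·) - 1` has more than `n` zeros, `P = 1`, all `T + κ K` are quasinilpotent, and for `w → 0` one gets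
`det (1 - κ F J) = 1`, so `F J` and `K` are nilpotent. If `n = 1`, the common invariant subspace consists
of the `x` with `F (1 - w T)⁻¹ x = 0` for all `w`.

Borel's theorem, zero-free entire functions, the splitting of a disconnected spectrum and the resolvent of
a finite rank perturbation are from the starting library (`H159R3.Exp`, `X882.FB`, `R283.Riesz`,
`Y271.CO`).
-/

set_option autoImplicit false

namespace Pool.Agent.Results.MP_f981b0_an.QuasinilpotentFiniteRank

/-- `T` has a closed subspace, neither `{0}` nor the whole space, which is invariant under every
bounded operator commuting with `T` -/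
def HasHyperinvariant {X : Type} [NormedAddCommGroup X] [NormedSpace ℂ X] (T : X →L[ℂ] X) : Prop :=
  ∃ V : Submodule ℂ X, IsClosed (V : Set X) ∧ V ≠ ⊥ ∧ V ≠ ⊤ ∧
    ∀ Q : X →L[ℂ] X, Q * T = T * Q → ∀ v ∈ V, Q v ∈ V

/-- Let `A` be a bounded operator with totally disconnected spectrum on an infinite dimensional complex
Banach space and `K` an operator of finite rank `n`. Then `A + κ K` has a nontrivial closed
hyperinvariant subspace for all `κ` with at most `2 n` exceptions, or `K` is nilpotent, all `A + κ K` have
the same one-point spectrum and, if `n = 1`, `A` and `K` have a common nontrivial closed invariant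
subspace. -/
theorem result {X : Type} [NormedAddCommGroup X] [NormedSpace ℂ X] [CompleteSpace X]
    (hX : ¬ FiniteDimensional ℂ X) (A K : X →L[ℂ] X)
    (hA : IsTotallyDisconnected (spectrum ℂ A)) (n : ℕ)
    (hK : FiniteDimensional ℂ (LinearMap.range (K : X →ₗ[ℂ] X)))
    (hn : Module.finrank ℂ (LinearMap.range (K : X →ₗ[ℂ] X)) = n) :
    {κ : ℂ | ¬ HasHyperinvariant (A + κ • K)}.encard ≤ 2 * n ∨
      (IsNilpotent K ∧ (∃ c : ℂ, ∀ κ : ℂ, spectrum ℂ (A + κ • K) = {c}) ∧
        (n = 1 → ∃ V : Submodule ℂ X, IsClosed (V : Set X) ∧ V ≠ ⊥ ∧ V ≠ ⊤ ∧
          ∀ v ∈ V, A v ∈ V ∧ K v ∈ V)) := by
  have hKc : IsCompactOperator K := Pool.Agent.Y271.CO.finrank_compact K hK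
  exact Pool.Agent.H875.QN.finite_rank hX A K hA hKc hK hn

end Pool.Agent.Results.MP_f981b0_an.QuasinilpotentFiniteRank
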